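import Pool.Agent.H8.Jellium.Main

set_option autoImplicit false

open Filter Topology
open Pool.Agent.H8.Jellium

namespace Pool.Agent.Results.MP_c8ec9a_mp.NeumannDiverges

theorem result (ρ : ℝ) (hρ : 0 < ρ) :
    ∃ Λ : ℕ → Set E3, RegularSequence ρ Λ ∧ ∀ β : ℝ, 0 < β → ∀ fermi : Bool,
      Tendsto (fun j : ℕ => gNeumann β ρ fermi (Λ j) j) atTop (𝓝 ⊤) ∧
      ∀ g : ℝ, ¬ Tendsto (fun j : ℕ => gNeumann β ρ fermi (Λ j) j) atTop (𝓝 (g : EReal)) :=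
  main ρ hρ

end Pool.Agent.Results.MP_c8ec9a_mp.NeumannDiverges
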